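import Pool.Agent.H.MP_ea0cba_gt.Sol

open Set Topology Filter Complex
open scoped Real

namespace Pool.Agent.H.MP_a217de_gt
open Pool.Agent.H.MP_ea0cba_gt

lemma exists_clopen {E : Type} [TopologicalSpace E] [T2Space E] {N W : Set E} (hN : IsCompact N)
    (hW : IsOpen W) {a : E} (ha : a ∈ N) (h : connectedComponentIn N a ⊆ W) :
    ∃ V, IsClosed V ∧ IsClosed (N \ V) ∧ a ∈ V ∧ V ⊆ N ∩ W := by
  have : CompactSpace N := isCompact_iff_compactSpace.1 hN
  have hc : IsCompact ((Subtype.val : N → E) ⁻¹' Wᶜ) :=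
    (hW.isClosed_compl.preimage continuous_subtype_val).isCompact
  have : Nonempty {s : Set N // IsClopen s ∧ (⟨a, ha⟩ : N) ∈ s} := ⟨⟨univ, isClopen_univ, trivial⟩⟩
  obtain ⟨Z, hZ⟩ := hc.elim_directed_family_closed
    (fun s : {s : Set N // IsClopen s ∧ (⟨a, ha⟩ : N) ∈ s} => s.1) (fun s => s.2.1.isClosed) (by
      rw [← connectedComponent_eq_iInter_isClopen, eq_empty_iff_forall_notMem]
      rintro x ⟨h1, h2⟩
      apply h1
      apply h
      rw [connectedComponentIn_eq_image ha]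
      exact ⟨x, h2, rfl⟩) (fun s t => ⟨⟨s.1 ∩ t.1, s.2.1.inter t.2.1, s.2.2, t.2.2⟩,
        inter_subset_left, inter_subset_right⟩)
  have hcm := hN.isClosed.isClosedEmbedding_subtypeVal.isClosedMap
  refine ⟨Subtype.val '' Z.1, hcm _ Z.2.1.isClosed, ?_, ⟨_, Z.2.2, rfl⟩, ?_⟩
  · have : N \ Subtype.val '' Z.1 = Subtype.val '' Z.1ᶜ := by
      ext x
      constructor
      · rintro ⟨h1, h2⟩
        exact ⟨⟨x, h1⟩, fun h3 => h2 ⟨_, h3, rfl⟩, rfl⟩
      · rintro ⟨y, h1, rfl⟩
        exact ⟨y.2, fun ⟨z, h2, h3⟩ => h1 (Subtype.ext h3 ▸ h2)⟩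
    rw [this]
    exact hcm _ Z.2.1.compl.isClosed
  · rintro _ ⟨x, hx, rfl⟩
    refine ⟨x.2, ?_⟩
    by_contra h1
    exact (eq_empty_iff_forall_notMem.1 hZ) x ⟨h1, hx⟩

lemma bump {C : Type} [TopologicalSpace C] [T2Space C] [CompactSpace C] [ConnectedSpace C]
    [Nontrivial C] {W : Set C} {a : C} (hW : W ∈ 𝓝 a) :
    ∃ c, c ≠ a ∧ ∃ S ⊆ W, IsPreconnected S ∧ a ∈ S ∧ c ∈ S := by
  obtain ⟨b, hb⟩ := exists_ne a
  obtain ⟨N, hN, hcl, hsub⟩ := exists_mem_nhds_isClosed_subset
    (inter_mem hW (isOpen_compl_singleton.mem_nhds hb.symm))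
  have ha : a ∈ N := mem_of_mem_nhds hN
  by_contra h
  push Not at h
  obtain ⟨V, h1, h2, h3, h4⟩ := exists_clopen hcl.isCompact isOpen_interior ha (W := interior N) (by
    intro c hc
    by_cases hca : c = a
    · exact hca ▸ mem_interior_iff_mem_nhds.2 hN
    · exact absurd hc (h c hca _ ((connectedComponentIn_subset _ _).trans
        (hsub.trans inter_subset_left)) isPreconnected_connectedComponentIn
        (mem_connectedComponentIn ha)))
  have h5 : IsOpen V := by
    have : V = interior N ∩ (N \ V)ᶜ := by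
      ext x
      constructor
      · exact fun hx => ⟨(h4 hx).2, fun h => h.2 hx⟩
      · rintro ⟨h6, h7⟩
        by_contra h8
        exact h7 ⟨interior_subset h6, h8⟩
    rw [this]
    exact isOpen_interior.inter h2.isOpen_compl
  have h6 : V = univ := IsClopen.eq_univ ⟨h1, h5⟩ ⟨a, h3⟩
  exact (hsub (h4 (h6.symm.subset (mem_univ b))).1).2 rfl

noncomputable def gam (s : ℝ) : ℝ × ℂ := (Real.exp (-s), ex s)
lemma gam_cont : Continuous gam := by unfold gam; fun_prop

def D0 : Set (ℝ × ℂ) := {0} ×ˢ Metric.closedBall 0 1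
def MM : Set (ℝ × ℂ) := D0 ∪ gam '' Ici 0

lemma D0_compact : IsCompact D0 := isCompact_singleton.prod (isCompact_closedBall _ _)
lemma D0_conn : IsConnected D0 :=
  isConnected_singleton.prod (Metric.isConnected_closedBall zero_le_one)
lemma gam_tend : Tendsto gam atTop (𝓝ˢ D0) := by
  rw [D0, isCompact_singleton.nhdsSet_prod_eq (isCompact_closedBall _ _), nhdsSet_singleton]
  refine Tendsto.prodMk Real.tendsto_exp_neg_atTop_nhds_zero ?_
  exact Tendsto.mono_right (tendsto_principal.2 (Eventually.of_forall fun s => by simp))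
    principal_le_nhdsSet
lemma MM_compact : IsCompact MM := tail_compact D0_compact gam_cont gam_tend 0
lemma MM_conn : IsConnected MM := tail_conn D0_compact D0_conn gam_cont gam_tend 0
lemma MM_one : (1 : ℝ × ℂ) ∈ MM := Or.inr ⟨0, self_mem_Ici, by simp [gam]⟩
lemma MM_zero : (0 : ℝ × ℂ) ∈ MM := Or.inl ⟨rfl, by simp⟩
lemma MM_norm {x : ℝ × ℂ} (hx : x ∈ MM) : ‖x.2‖ ≤ 1 := by
  rcases hx with h | ⟨s, _, rfl⟩
  · simpa using h.2
  · simp [gam]
lemma MM_mul {x y : ℝ × ℂ} (hx : x ∈ MM) (hy : y ∈ MM) : x * y ∈ MM := by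
  have h : ‖x.2 * y.2‖ ≤ 1 := by
    rw [norm_mul]
    exact mul_le_one₀ (MM_norm hx) (norm_nonneg _) (MM_norm hy)
  rcases hx with h1 | ⟨s, hs, rfl⟩
  · exact Or.inl ⟨by simp [show x.1 = 0 from h1.1], by simpa using h⟩
  rcases hy with h2 | ⟨t, ht, rfl⟩
  · exact Or.inl ⟨by simp [show y.1 = 0 from h2.1], by simpa using h⟩
  refine Or.inr ⟨s + t, add_nonneg (mem_Ici.1 hs) (mem_Ici.1 ht), ?_⟩
  simp [gam, ex_add, ← Real.exp_add, add_comm]
lemma MM_unit {x y : ℝ × ℂ} (hx : x ∈ MM) (hy : y ∈ MM) (h : x * y = 1) : y = 1 := by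
  have h0 : x.1 * y.1 = 1 := congrArg Prod.fst h
  rcases hx with h1 | ⟨s, hs, rfl⟩
  · simp [show x.1 = 0 from h1.1] at h0
  rcases hy with h2 | ⟨t, ht, rfl⟩
  · simp [show y.1 = 0 from h2.1] at h0
  simp only [gam, ← Real.exp_add, Real.exp_eq_one_iff] at h0
  have : t = 0 := by linarith [mem_Ici.1 hs, mem_Ici.1 ht]
  subst this
  simp [gam]
lemma MM_val {x : ℝ × ℂ} (hx : x ∈ MM) {s : ℝ} (h : x.1 = Real.exp (-s)) : x.2 = ex s := by
  rcases hx with h1 | ⟨t, _, rfl⟩
  · have := Real.exp_pos (-s)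
    rw [← h, show x.1 = 0 from h1.1] at this
    exact absurd this (lt_irrefl _)
  · have : t = s := neg_injective (Real.exp_injective h)
    rw [this]
    rfl

lemma path_ray {δ : ℝ → ℝ × ℂ} (hc : Continuous δ) (hm : ∀ t, δ t ∈ MM) {t1 : ℝ}
    (h1 : (δ t1).1 ≠ 0) (t : ℝ) : (δ t).1 ≠ 0 := by
  have hcl : IsClopen {t | (δ t).1 = 0} := by
    refine ⟨isClosed_eq (by fun_prop) continuous_const, isOpen_iff_mem_nhds.2 fun t0 h0 => ?_⟩
    have h2 : ∀ᶠ t in 𝓝 t0, dist (δ t).2 (δ t0).2 < 1 :=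
      Metric.tendsto_nhds.1 (continuous_snd.comp hc).continuousAt 1 one_pos
    obtain ⟨ε, hε, h3⟩ := Metric.eventually_nhds_iff_ball.1 h2
    filter_upwards [Metric.ball_mem_nhds t0 hε] with t ht
    by_contra h4
    have h5 : 0 < (δ t).1 := by
      rcases hm t with h | ⟨s, _, h⟩
      · exact absurd h.1 h4
      · rw [← h]
        exact Real.exp_pos _
    have h6 := (convex_ball t0 ε).isPreconnected.intermediate_value (Metric.mem_ball_self hε) ht
      (continuous_fst.comp hc).continuousOn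
    obtain ⟨k, hk⟩ := (((Real.tendsto_exp_neg_atTop_nhds_zero.comp
      (tendsto_natCast_atTop_atTop.atTop_mul_const (by positivity : 0 < 2 * π))).eventually
      (gt_mem_nhds h5))).exists
    have h0' : (δ t0).1 = 0 := h0
    simp only [Function.comp] at hk h6
    obtain ⟨u, hu, h7⟩ := h6 (a := Real.exp (-(k * (2 * π)))) ⟨h0' ▸ (Real.exp_pos _).le, hk.le⟩
    obtain ⟨w, hw, h8⟩ := h6 (a := Real.exp (-(k * (2 * π) + π))) ⟨h0' ▸ (Real.exp_pos _).le,
      (Real.exp_le_exp.2 (by linarith [Real.pi_pos])).trans hk.le⟩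
    have e1 : ex (k * (2 * π)) = 1 := by
      simp only [ex]
      push_cast
      rw [mul_assoc]
      exact Complex.exp_nat_mul_two_pi_mul_I k
    have h9 := MM_val (hm u) h7
    have h10 := MM_val (hm w) h8
    rw [ex_add, e1, ex_pi, one_mul] at h10
    rw [e1] at h9
    have h11 := dist_triangle_right (δ u).2 (δ w).2 (δ t0).2
    have h12 : dist (δ u).2 (δ w).2 = 2 := by
      rw [h9, h10, dist_eq_norm]
      norm_num
    linarith [h3 u hu, h3 w hw]
  intro h
  exact h1 ((hcl.eq_univ ⟨t, h⟩).symm.subset (mem_univ t1))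

abbrev P : Type := ℕ → ℝ × ℂ

def X0 : Set P := {x | (∀ n, x n ∈ MM) ∧ ∀ n, x n = 1 ∨ x (n + 1) = 0}

lemma X0_one : (1 : P) ∈ X0 := ⟨fun _ => MM_one, fun _ => Or.inl rfl⟩

lemma X0_mul {x y : P} (hx : x ∈ X0) (hy : y ∈ X0) : x * y ∈ X0 := by
  refine ⟨fun n => MM_mul (hx.1 n) (hy.1 n), fun n => ?_⟩
  rcases hx.2 n with h | h
  · rcases hy.2 n with h' | h'
    · exact Or.inl (by simp [h, h'])
    · exact Or.inr (by simp [h'])
  · exact Or.inr (by simp [h])

lemma X0_compact : IsCompact X0 := by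
  refine (isCompact_univ_pi fun _ : ℕ => MM_compact).of_isClosed_subset ?_ fun x hx n _ => hx.1 n
  have : X0 = (⋂ n, (fun x : P => x n) ⁻¹' MM) ∩ ⋂ n, ({x : P | x n = 1} ∪ {x | x (n + 1) = 0}) := by
    ext x
    simp [X0]
  rw [this]
  exact (isClosed_iInter fun n => MM_compact.isClosed.preimage (continuous_apply n)).inter
    (isClosed_iInter fun n => (isClosed_eq (continuous_apply _) continuous_const).union
      (isClosed_eq (continuous_apply _) continuous_const))

def bb (n : ℕ) (m : ℝ × ℂ) : P := fun k => if k < n then 1 else if k = n then m else 0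

lemma bb_cont (n : ℕ) : Continuous (bb n) := by
  refine continuous_pi fun k => ?_
  unfold bb
  split_ifs <;> fun_prop

lemma bb_mem (n : ℕ) {m : ℝ × ℂ} (hm : m ∈ MM) : bb n m ∈ X0 := by
  constructor
  · intro k
    unfold bb
    split_ifs
    exacts [MM_one, hm, MM_zero]
  · intro k
    by_cases h : k < n
    · exact Or.inl (if_pos h)
    · exact Or.inr (by simp only [bb]; rw [if_neg (by omega), if_neg (by omega)])

lemma bb_tend : Tendsto (fun n => bb n 0) atTop (𝓝 1) := by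
  refine tendsto_pi_nhds.2 fun k => tendsto_const_nhds.congr' ?_
  filter_upwards [eventually_gt_atTop k] with n hn
  exact (if_pos hn).symm

lemma X0_conn : IsConnected X0 := by
  have h1 : IsConnected (⋃ n, bb n '' MM) := by
    refine IsConnected.iUnion_of_chain (fun n => MM_conn.image _ (bb_cont n).continuousOn)
      fun n => ⟨bb n 1, ⟨1, MM_one, rfl⟩, 0, MM_zero, ?_⟩
    funext k
    simp only [bb, Order.succ_eq_add_one]
    split_ifs <;> first | rfl | omega
  refine h1.subset_closure (iUnion_subset fun n => ?_) fun x hx => ?_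
  · rintro _ ⟨m, hm, rfl⟩
    exact bb_mem n hm
  · by_cases h : ∃ n, x n ≠ 1
    · refine subset_closure (mem_iUnion.2 ⟨Nat.find h, x (Nat.find h), hx.1 _, ?_⟩)
      funext k
      have h2 : ∀ j, x (Nat.find h + j + 1) = 0 := by
        intro j
        induction j with
        | zero => exact (hx.2 _).resolve_left (Nat.find_spec h)
        | succ j ih =>
          refine (hx.2 _).resolve_left ?_
          rw [← add_assoc, ih]
          exact zero_ne_one
      simp only [bb]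
      split_ifs with h3 h4
      · exact (not_not.1 (Nat.find_min h h3)).symm
      · rw [h4]
      · obtain ⟨j, rfl⟩ := Nat.exists_eq_add_of_lt (lt_of_le_of_ne (not_lt.1 h3) (Ne.symm h4))
        exact (h2 j).symm
    · push Not at h
      have : x = 1 := funext h
      rw [this]
      exact mem_closure_of_tendsto bb_tend
        (Eventually.of_forall fun n => mem_iUnion.2 ⟨n, 0, MM_zero, rfl⟩)

def EE : Set P := {x | x ∈ X0 ∧ ∀ n, x n = 1 ∨ x n = 0}

lemma EE_compact : IsCompact EE := by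
  have : EE = X0 ∩ ⋂ n, ({x : P | x n = 1} ∪ {x | x n = 0}) := by
    ext x
    simp [EE]
  rw [this]
  exact X0_compact.inter_right (isClosed_iInter fun n =>
    (isClosed_eq (continuous_apply _) continuous_const).union
      (isClosed_eq (continuous_apply _) continuous_const))

lemma bb_EE (n : ℕ) : bb n 0 ∈ EE := by
  refine ⟨bb_mem n MM_zero, fun k => ?_⟩
  unfold bb
  split_ifs <;> simp

def XS : Set (P × ℝ) := X0 ×ˢ Icc (-1) 1
def YS : Set (P × ℝ) := XS ∪ EE ×ˢ Icc 1 2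

lemma XS_compact : IsCompact XS := X0_compact.prod isCompact_Icc
lemma XS_conn : IsConnected XS := X0_conn.prod (isConnected_Icc (by norm_num))
lemma YS_compact : IsCompact YS := XS_compact.union (EE_compact.prod isCompact_Icc)
lemma YS_conn : IsConnected YS := by
  have h0 : ((1, 0) : P × ℝ) ∈ XS := ⟨X0_one, by simp⟩
  refine ⟨⟨_, Or.inl h0⟩, isPreconnected_of_forall ((1, 0) : P × ℝ) fun y hy => ?_⟩
  rcases hy with h | h
  · exact ⟨XS, subset_union_left, h0, h, XS_conn.2⟩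
  · refine ⟨XS ∪ {y.1} ×ˢ Icc 1 2, union_subset_union_right _ (prod_mono (by simpa using h.1)
      subset_rfl), Or.inl h0, Or.inr ⟨rfl, h.2⟩, ?_⟩
    have h2 : (XS ∩ {y.1} ×ˢ Icc (1 : ℝ) 2).Nonempty :=
      ⟨(y.1, 1), mem_inter (mk_mem_prod h.1.1 (by simp)) (mk_mem_prod rfl (by simp))⟩
    exact (IsConnected.union h2 XS_conn
      (isConnected_singleton.prod (isConnected_Icc (by norm_num)))).2

lemma YS_fst {y : P × ℝ} (hy : y ∈ YS) : y.1 ∈ X0 := hy.elim (fun h => h.1) fun h => h.1.1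

lemma seg_mem {e : P} (he : e ∈ EE) (t : ℝ) : (e, max (-1) (min 2 t)) ∈ YS := by
  rcases le_total (max (-1) (min 2 t)) 1 with h | h
  · exact Or.inl ⟨he.1, le_max_left _ _, h⟩
  · exact Or.inr ⟨he, h, max_le (by norm_num) (min_le_left _ _)⟩

theorem Y_stable {C : Type} [TopologicalSpace C] [T2Space C] [CompactSpace C] [ConnectedSpace C]
    [Nontrivial C] (a : C) (G : YS × C → YS) (hG : Continuous G) (h1 : ∀ z, G (z, a) = z) :
    ∃ z c, c ≠ a ∧ (G (z, c)).1 = (1, 0) := by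
  have : CompactSpace YS := isCompact_iff_compactSpace.1 YS_compact
  have hW : {c | ∀ z, |(G (z, c)).1.2 - z.1.2| < 1 / 4} ∈ 𝓝 a := by
    have h2 : IsOpen {q : YS × C | |(G q).1.2 - q.1.1.2| < 1 / 4} :=
      isOpen_lt (by fun_prop) continuous_const
    obtain ⟨u, v, -, hv, h3, h4, h5⟩ := generalized_tube_lemma isCompact_univ
      (isCompact_singleton (x := a)) h2 (by
        rintro ⟨z, c⟩ ⟨-, rfl⟩
        simp [h1])
    filter_upwards [hv.mem_nhds (h4 rfl)] with c hc z
    exact h5 (show (z, c) ∈ u ×ˢ v from ⟨h3 (mem_univ z), hc⟩)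
  obtain ⟨c, hca, S, hSW, hS, haS, hcS⟩ := bump hW
  let sg : ∀ e : EE, ℝ → YS := fun e t => ⟨(e.1, max (-1) (min 2 t)), seg_mem e.2 t⟩
  have hsg : Continuous fun q : EE × ℝ => sg q.1 q.2 := by
    refine Continuous.subtype_mk ?_ _
    fun_prop
  have top : ∀ (e : EE) (m : ℕ), e.1 m = 1 → ((G (sg e 2, c)).1.1 m).1 ≠ 0 := by
    intro e m hm h0
    have h2 : Continuous fun c => ((G (sg e 2, c)).1.1 m).1 := by fun_prop
    obtain ⟨c', hc', h3⟩ := hS.intermediate_value hcS haS h2.continuousOn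
      (show (1 / 2 : ℝ) ∈ _ from ⟨by rw [h0]; norm_num, by rw [h1]; simp [sg, hm]; norm_num⟩)
    have h4 := hSW hc' (sg e 2)
    have h5 : (sg e 2).1.2 = 2 := by norm_num [sg]
    rw [h5] at h4
    have h6 : (G (sg e 2, c')).1.1 ∈ EE := by
      rcases (G (sg e 2, c')).2 with h | h
      · linarith [h.2.2, (abs_lt.1 h4).1]
      · exact h.1
    simp only at h3
    rcases h6.2 m with h | h <;> rw [h] at h3 <;> norm_num at h3
  have low : ∀ (m : ℕ) (e : EE), e.1 (m + 1) = 1 → ∀ t, (G (sg e t, c)).1.1 m = 1 := by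
    intro m e hm t
    have h2 : Continuous fun t => (G (sg e t, c)).1.1 (m + 1) := by
      have : Continuous (sg e) := hsg.comp (Continuous.prodMk_right e)
      fun_prop
    have h3 := path_ray h2 (fun t => (YS_fst (G (sg e t, c)).2).1 _) (top e _ hm) t
    refine ((YS_fst (G (sg e t, c)).2).2 m).resolve_right fun h => h3 ?_
    rw [h]
    rfl
  let e1 : EE := ⟨1, X0_one, fun _ => Or.inl rfl⟩
  have hone : ∀ t, (G (sg e1 t, c)).1.1 = 1 := fun t => funext fun m => low m e1 rfl t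
  have h2 : Continuous fun t => (G (sg e1 t, c)).1.2 := by
    have : Continuous (sg e1) := hsg.comp (Continuous.prodMk_right e1)
    fun_prop
  have h3 := hSW hcS (sg e1 (-1))
  have h4 := hSW hcS (sg e1 1)
  have h5 : (sg e1 (-1)).1.2 = -1 := by norm_num [sg]
  have h6 : (sg e1 1).1.2 = 1 := by norm_num [sg]
  rw [h5] at h3
  rw [h6] at h4
  obtain ⟨t, ht⟩ := intermediate_value_univ (-1) 1 h2
    (show (0 : ℝ) ∈ _ from ⟨by linarith [(abs_lt.1 h3).2], by linarith [(abs_lt.1 h4).1]⟩)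
  exact ⟨sg e1 t, c, hca, Prod.ext (hone t) ht⟩

end Pool.Agent.H.MP_a217de_gt
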